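import Pool.Agent.Helper69.SwR.Defs

/-! Counting module: the union bound -/

open Finset

namespace SwR

open Classical in
/-- the pairs (subset of size at least `n - 2`, non-identical injection) -/
noncomputable def badPairs (n : ℕ) : Finset (Fin n × Fin n × (Fin n → Fin n)) :=
  univ.filter fun t => Inj2 t.1 t.2.1 t.2.2 ∧ ∃ x, (x ≠ t.1 ∧ x ≠ t.2.1) ∧ t.2.2 x ≠ x

open Classical in
/-- number of graphs whose two-graph is preserved -/
noncomputable def fixCount (n : ℕ) (t : Fin n × Fin n × (Fin n → Fin n)) : ℕ :=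
  ((univ : Finset (SimpleGraph (Fin n))).filter fun X => Pres X t.1 t.2.1 t.2.2).card

/-- encoding of graphs by edge sets, where the edges in `P` are determined by the others -/
theorem card_le_of_private (n : ℕ) (S : Finset (SimpleGraph (Fin n)))
    (P : Finset (Sym2 (Fin n))) (hP : ∀ e ∈ P, ¬ e.IsDiag)
    (hdet : ∀ X ∈ S, ∀ Y ∈ S, (∀ a b, s(a, b) ∉ P → (X.Adj a b ↔ Y.Adj a b)) → X = Y) :
    S.card * 2 ^ P.card ≤ 2 ^ (n.choose 2) := by
  classical
  set E : Finset (Sym2 (Fin n)) := (⊤ : SimpleGraph (Fin n)).edgeFinset with hE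
  have hEcard : E.card = n.choose 2 := by
    rw [hE, SimpleGraph.card_edgeFinset_top_eq_card_choose_two, Fintype.card_fin]
  have hPE : P ⊆ E := by
    intro e he
    rw [hE, SimpleGraph.mem_edgeFinset, SimpleGraph.edgeSet_top]
    exact hP e he
  have h1 : S.card ≤ (E \ P).powerset.card := by
    apply card_le_card_of_injOn (fun X => X.edgeFinset \ P)
    · intro X _
      simp only [coe_powerset, Set.mem_preimage, Set.mem_powerset_iff, coe_subset]
      apply sdiff_subset_sdiff _ (le_refl P)
      rw [hE]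
      exact SimpleGraph.edgeFinset_subset_edgeFinset.2 le_top
    · intro X hX Y hY hXY
      apply hdet X hX Y hY
      intro a b hab
      have h2 : s(a, b) ∈ X.edgeFinset \ P ↔ s(a, b) ∈ Y.edgeFinset \ P := by
        simp only at hXY
        rw [hXY]
      simpa only [mem_sdiff, hab, not_false_eq_true, and_true, SimpleGraph.mem_edgeFinset,
        SimpleGraph.mem_edgeSet] using h2
  rw [card_powerset, card_sdiff_of_subset hPE, hEcard] at h1
  have h3 : P.card ≤ n.choose 2 := hEcard ▸ card_le_card hPE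
  calc S.card * 2 ^ P.card ≤ 2 ^ (n.choose 2 - P.card) * 2 ^ P.card :=
        Nat.mul_le_mul_right _ h1
    _ = 2 ^ (n.choose 2) := by rw [← pow_add, Nat.sub_add_cancel h3]

theorem card_graphs (n : ℕ) : Fintype.card (SimpleGraph (Fin n)) = 2 ^ (n.choose 2) := by
  classical
  apply le_antisymm
  · have := card_le_of_private n univ ∅ (by simp) (fun X _ Y _ h => by
      ext a b
      exact h a b (by simp))
    simpa using this
  · have h : (⊤ : SimpleGraph (Fin n)).edgeFinset.powerset.card ≤
        Fintype.card (SimpleGraph (Fin n)) := by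
      rw [← card_univ]
      apply card_le_card_of_injOn
        (fun s : Finset (Sym2 (Fin n)) => SimpleGraph.fromEdgeSet (s : Set (Sym2 (Fin n))))
      · intro s _
        exact mem_coe.2 (mem_univ _)
      · intro s hs t ht hst
        have h1 : ∀ s ∈ (⊤ : SimpleGraph (Fin n)).edgeFinset.powerset,
            (SimpleGraph.fromEdgeSet (s : Set (Sym2 (Fin n)))).edgeSet =
              (s : Set (Sym2 (Fin n))) := by
          intro s hs
          rw [SimpleGraph.edgeSet_fromEdgeSet, sdiff_eq_left]
          rw [Set.disjoint_left]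
          intro e he hd
          have := (mem_powerset.1 hs) he
          rw [SimpleGraph.mem_edgeFinset, SimpleGraph.edgeSet_top] at this
          exact this hd
        have h2 := h1 s (mem_coe.1 hs)
        have h3 := h1 t (mem_coe.1 ht)
        apply Finset.coe_injective
        simp only at hst
        rw [← h2, ← h3, hst]
    rwa [card_powerset, SimpleGraph.card_edgeFinset_top_eq_card_choose_two,
      Fintype.card_fin] at h

/-- one step of the union bound -/
theorem count_step (n : ℕ) (u v : Fin n) (f : Fin n → Fin n) (hf : Inj2 u v f)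
    (A : Finset (Fin n)) (hA : ∀ x ∈ A, x ≠ u ∧ x ≠ v) (hfA : ∀ x ∈ A, f x ∉ A)
    (h : 2 * A.card + 3 ≤ n) :
    fixCount n (u, v, f) * 2 ^ (A.card * (n - 3 - 2 * A.card)) ≤ 2 ^ (n.choose 2) := by
  classical
  set D : Finset (Fin n) := univ.filter (fun x => (x ≠ u ∧ x ≠ v) ∧ x ∉ A ∧ f x ∉ A) with hD
  set B : Finset (Fin n) := univ.filter (fun x => (x ≠ u ∧ x ≠ v) ∧ f x ∈ A) with hB
  have hBc : B.card ≤ A.card := by
    apply card_le_card_of_injOn f
    · intro x hx
      rw [hB, mem_coe, mem_filter] at hx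
      exact mem_coe.2 hx.2.2
    · intro x hx y hy hxy
      rw [hB, mem_coe, mem_filter] at hx hy
      exact hf x y hx.2.1 hy.2.1 hxy
  have hcov : (univ : Finset (Fin n)) ⊆ D ∪ (({u, v} : Finset (Fin n)) ∪ (A ∪ B)) := by
    intro x _
    simp only [hD, hB, mem_union, mem_filter, mem_univ, true_and, mem_insert, mem_singleton]
    tauto
  have hDc : n ≤ D.card + (2 + (A.card + A.card)) := by
    have h1 := card_le_card hcov
    rw [card_univ, Fintype.card_fin] at h1
    have h2 := card_union_le D (({u, v} : Finset (Fin n)) ∪ (A ∪ B))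
    have h3 := card_union_le ({u, v} : Finset (Fin n)) (A ∪ B)
    have h4 := card_union_le A B
    have h5 : ({u, v} : Finset (Fin n)).card ≤ 2 := card_le_two
    omega
  obtain ⟨z, hz⟩ : D.Nonempty := card_pos.1 (by omega)
  have hz' := (mem_filter.1 (hD ▸ hz)).2
  set Y := D.erase z with hY
  have hYc : n - 3 - 2 * A.card ≤ Y.card := by
    rw [hY, card_erase_of_mem hz]; omega
  have hYD : ∀ y ∈ Y, y ≠ z ∧ (y ≠ u ∧ y ≠ v) ∧ y ∉ A ∧ f y ∉ A := by
    intro y hy
    rw [hY, mem_erase, hD, mem_filter] at hy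
    exact ⟨hy.1, hy.2.2⟩
  set P : Finset (Sym2 (Fin n)) := (A ×ˢ Y).image (fun p => s(p.1, p.2)) with hPdef
  have hPc : P.card = A.card * Y.card := by
    rw [hPdef, card_image_of_injOn, card_product]
    rintro ⟨a, y⟩ h1 ⟨a', y'⟩ h2 h3
    rw [mem_coe, mem_product] at h1 h2
    simp only [Sym2.eq_iff] at h3
    rcases h3 with h3 | h3
    · exact Prod.ext h3.1 h3.2
    · exfalso
      have h4 : a = y' := h3.1
      have h5 : y' ∈ Y := h2.2
      exact (hYD y' h5).2.2.1 (h4 ▸ h1.1)
  have hmem : ∀ a b, s(a, b) ∈ P → (a ∈ A ∧ b ∈ Y) ∨ (b ∈ A ∧ a ∈ Y) := by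
    intro a b hab
    rw [hPdef, mem_image] at hab
    obtain ⟨⟨x, y⟩, hxy, h3⟩ := hab
    rw [mem_product] at hxy
    simp only [Sym2.eq_iff] at h3
    rcases h3 with ⟨rfl, rfl⟩ | ⟨rfl, rfl⟩
    · exact Or.inl hxy
    · exact Or.inr hxy
  have hmain : fixCount n (u, v, f) * 2 ^ P.card ≤ 2 ^ (n.choose 2) := by
    unfold fixCount
    apply card_le_of_private
    · intro e he
      induction e using Sym2.ind with
      | _ a b =>
        intro hd
        rw [Sym2.mk_isDiag_iff] at hd
        subst hd
        rcases hmem a a he with h1 | h1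
        · exact (hYD a h1.2).2.2.1 h1.1
        · exact (hYD a h1.2).2.2.1 h1.1
    · intro X hX X' hX' hag
      rw [mem_filter] at hX hX'
      have hag' : ∀ a b, s(a, b) ∉ P → g X a b = g X' a b := by
        intro a b hab
        rw [g_eq_iff]; exact hag a b hab
      -- pairs without endpoint in `A`
      have hout : ∀ a b, a ∉ A → b ∉ A → g X a b = g X' a b := by
        intro a b ha hb
        apply hag'
        intro h1
        rcases hmem a b h1 with h2 | h2
        · exact ha h2.1
        · exact hb h2.1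
      have hz1 : ∀ a, a ∈ A → g X a z = g X' a z := by
        intro a ha
        apply hag'
        intro h1
        rcases hmem a z h1 with h2 | h2
        · exact (hYD z h2.2).1 rfl
        · exact hz'.2.1 h2.1
      have hAY : ∀ a y, a ∈ A → y ∈ Y → g X a y = g X' a y := by
        intro a y ha hy
        have h1 := hX.2 a y z (hA a ha) (hYD y hy).2.1 hz'.1
        have h2 := hX'.2 a y z (hA a ha) (hYD y hy).2.1 hz'.1
        unfold T at h1 h2
        simp only at h1 h2
        rw [hz1 a ha, hout y z (hYD y hy).2.2.1 hz'.2.1,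
          hout (f a) (f y) (hfA a ha) (hYD y hy).2.2.2,
          hout (f y) (f z) (hYD y hy).2.2.2 hz'.2.2,
          hout (f a) (f z) (hfA a ha) hz'.2.2] at h1
        linear_combination h1 - h2
      apply ext_g
      intro a b
      by_cases hab : s(a, b) ∈ P
      · rcases hmem a b hab with h1 | h1
        · exact hAY a b h1.1 h1.2
        · rw [g_symm X, g_symm X']
          exact hAY b a h1.1 h1.2
      · exact hag' a b hab
  calc fixCount n (u, v, f) * 2 ^ (A.card * (n - 3 - 2 * A.card))
      ≤ fixCount n (u, v, f) * 2 ^ P.card := by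
        apply Nat.mul_le_mul_left
        apply Nat.pow_le_pow_right (by norm_num)
        rw [hPc]
        exact Nat.mul_le_mul_left _ hYc
    _ ≤ _ := hmain

/-- a large subset disjoint from its image -/
theorem exists_disjoint_image (n : ℕ) (u v : Fin n) (f : Fin n → Fin n) (hf : Inj2 u v f)
    (M : Finset (Fin n)) (hM : ∀ x ∈ M, (x ≠ u ∧ x ≠ v) ∧ f x ≠ x) (a : ℕ)
    (ha : 3 * a ≤ M.card + 2) : ∃ A ⊆ M, A.card = a ∧ ∀ x ∈ A, f x ∉ A := by
  classical
  induction a with
  | zero => exact ⟨∅, by simp, by simp, by simp⟩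
  | succ a ih =>
    obtain ⟨A, hAM, hAc, hA⟩ := ih (by omega)
    have hpre : (M.filter (fun x => f x ∈ A)).card ≤ A.card := by
      apply card_le_card_of_injOn f
      · intro x hx
        rw [mem_coe, mem_filter] at hx
        exact mem_coe.2 hx.2
      · intro x hx y hy hxy
        rw [mem_coe, mem_filter] at hx hy
        exact hf x y (hM x hx.1).1 (hM y hy.1).1 hxy
    have hlt : (A ∪ (A.image f ∪ M.filter (fun x => f x ∈ A))).card < M.card := by
      have h1 := card_union_le A (A.image f ∪ M.filter (fun x => f x ∈ A))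
      have h2 := card_union_le (A.image f) (M.filter (fun x => f x ∈ A))
      have h3 : (A.image f).card ≤ A.card := card_image_le
      omega
    obtain ⟨x, hxM, hx⟩ := exists_mem_notMem_of_card_lt_card hlt
    simp only [mem_union, mem_filter, mem_image, not_or, not_exists, not_and] at hx
    obtain ⟨hxA, hximg, hxf⟩ := hx
    refine ⟨insert x A, ?_, ?_, ?_⟩
    · intro y hy
      rcases mem_insert.1 hy with rfl | h
      · exact hxM
      · exact hAM h
    · rw [card_insert_of_notMem hxA, hAc]
    · intro y hy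
      rw [mem_insert, not_or]
      rcases mem_insert.1 hy with rfl | h
      · exact ⟨(hM y hxM).2, hxf hxM⟩
      · exact ⟨fun h1 => hximg y h h1, hA y h⟩

/-- number of self-maps with few moved points -/
theorem card_moved_le (n j : ℕ) (hn : 0 < n) :
    ((univ : Finset (Fin n → Fin n)).filter
      (fun f => (univ.filter (fun x => f x ≠ x)).card ≤ j)).card ≤ n ^ (2 * j) := by
  classical
  have : Nonempty (Fin n) := ⟨⟨0, hn⟩⟩
  have h1 : ((univ : Finset (Fin n → Fin n)).filter
      (fun f => (univ.filter (fun x => f x ≠ x)).card ≤ j)) ⊆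
      (univ : Finset (Fin j → Fin n × Fin n)).image
        (fun l x => if h : ∃ i, (l i).1 = x then (l h.choose).2 else x) := by
    intro f hf
    rw [mem_filter] at hf
    set M := univ.filter (fun x => f x ≠ x) with hM
    rw [mem_image]
    let p : Fin j → Fin n := fun i => M.toList.getD i ⟨0, hn⟩
    have hp : ∀ x ∈ M, ∃ i, p i = x := by
      intro x hx
      obtain ⟨k, hk, hkx⟩ := List.getElem_of_mem (mem_toList.2 hx)
      rw [length_toList] at hk
      refine ⟨⟨k, lt_of_lt_of_le hk hf.2⟩, ?_⟩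
      change M.toList.getD k ⟨0, hn⟩ = x
      rw [List.getD_eq_getElem _ _ (by rw [length_toList]; exact hk), hkx]
    refine ⟨fun i => (p i, f (p i)), mem_univ _, ?_⟩
    funext x
    simp only
    split_ifs with h
    · rw [h.choose_spec]
    · by_contra hne
      apply h
      exact hp x (by rw [hM, mem_filter]; exact ⟨mem_univ _, fun h => hne h.symm⟩)
  calc _ ≤ _ := card_le_card h1
    _ ≤ (univ : Finset (Fin j → Fin n × Fin n)).card := card_image_le
    _ = n ^ (2 * j) := by
      rw [card_univ, Fintype.card_fun, Fintype.card_prod, Fintype.card_fin, Fintype.card_fin,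
        pow_mul, pow_two]

theorem geom_le (q : ℝ) (h0 : 0 ≤ q) (h1 : q ≤ 1 / 2) (N : ℕ) :
    ∑ b ∈ range N, q ^ (b + 1) ≤ 2 * q * (1 - (1 / 2) ^ N) := by
  induction N with
  | zero => simp
  | succ N ih =>
    rw [sum_range_succ]
    have h2 : q ^ (N + 1) ≤ q * (1 / 2) ^ N := by
      rw [pow_succ, mul_comm]
      exact mul_le_mul_of_nonneg_left (pow_le_pow_left₀ h0 h1 N) h0
    have h3 : (1 / 2 : ℝ) ^ (N + 1) = (1 / 2) ^ N / 2 := by rw [pow_succ]; ring
    rw [h3]
    nlinarith

theorem union_bound (n : ℕ) (hn : 11 ≤ n) (h : 2 * n ^ 12 ≤ 2 ^ ((n - 11) / 3)) :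
    ((∑ t ∈ badPairs n, fixCount n t : ℕ) : ℝ) ≤
      2 * ((n : ℝ) ^ 12 / 2 ^ ((n - 11) / 3)) * 2 ^ (n.choose 2) := by
  classical
  set m := (n - 11) / 3 with hm
  set q : ℝ := (n : ℝ) ^ 12 / 2 ^ m with hq
  have hq0 : 0 ≤ q := by positivity
  have hq1 : q ≤ 1 / 2 := by
    rw [hq, div_le_iff₀ (by positivity)]
    have : ((2 * n ^ 12 : ℕ) : ℝ) ≤ ((2 ^ m : ℕ) : ℝ) := by exact_mod_cast h
    push_cast at this
    linarith
  have hn1 : (1 : ℝ) ≤ n := by exact_mod_cast (by omega : 1 ≤ n)
  -- moved points in the domain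
  let mv : Fin n × Fin n × (Fin n → Fin n) → Finset (Fin n) := fun t =>
    univ.filter (fun x => (x ≠ t.1 ∧ x ≠ t.2.1) ∧ t.2.2 x ≠ x)
  let b : Fin n × Fin n × (Fin n → Fin n) → ℕ := fun t => ((mv t).card + 2) / 3 - 1
  have hmvpos : ∀ t ∈ badPairs n, 1 ≤ (mv t).card := by
    intro t ht
    unfold badPairs at ht
    rw [mem_filter] at ht
    obtain ⟨_, _, x, hx, hne⟩ := ht
    exact card_pos.2 ⟨x, by rw [mem_filter]; exact ⟨mem_univ _, hx, hne⟩⟩
  have hmvlt : ∀ t, (mv t).card ≤ n - 1 := by
    intro t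
    have h1 : mv t ⊆ univ.erase t.1 := by
      intro x hx
      rw [mem_filter] at hx
      exact mem_erase.2 ⟨hx.2.1.1, mem_univ _⟩
    have h2 := card_le_card h1
    rwa [card_erase_of_mem (mem_univ _), card_univ, Fintype.card_fin] at h2
  have hfix : ∀ t ∈ badPairs n, (fixCount n t : ℝ) ≤ 2 ^ (n.choose 2) * (1 / 2 ^ m) ^ (b t + 1) := by
    intro t ht
    have hpos := hmvpos t ht
    have hlt := hmvlt t
    unfold badPairs at ht
    rw [mem_filter] at ht
    obtain ⟨A, hAM, hAc, hA⟩ := exists_disjoint_image n t.1 t.2.1 t.2.2 ht.2.1 (mv t)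
      (fun x hx => by rw [mem_filter] at hx; exact hx.2) (b t + 1) (by
        change 3 * (((mv t).card + 2) / 3 - 1 + 1) ≤ (mv t).card + 2
        omega)
    have hb : b t = ((mv t).card + 2) / 3 - 1 := rfl
    have h1 := count_step n t.1 t.2.1 t.2.2 ht.2.1 A
      (fun x hx => by have := hAM hx; rw [mem_filter] at this; exact this.2.1) hA (by omega)
    have h2 : m ≤ n - 3 - 2 * A.card := by omega
    have h3 : fixCount n t * 2 ^ ((b t + 1) * m) ≤ 2 ^ (n.choose 2) := by
      refine le_trans ?_ h1
      apply Nat.mul_le_mul_left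
      apply Nat.pow_le_pow_right (by norm_num)
      rw [hAc] at h2 ⊢
      exact Nat.mul_le_mul_left _ h2
    have h4 : ((fixCount n t * 2 ^ ((b t + 1) * m) : ℕ) : ℝ) ≤ ((2 ^ (n.choose 2) : ℕ) : ℝ) := by
      exact_mod_cast h3
    push_cast at h4
    rw [one_div, inv_pow, ← pow_mul, ← div_eq_mul_inv, le_div_iff₀ (by positivity),
      mul_comm m (b t + 1)]
    exact h4
  have hbn : ∀ t ∈ badPairs n, b t ∈ range n := by
    intro t _
    rw [mem_range]
    have := hmvlt t
    have hb : b t = ((mv t).card + 2) / 3 - 1 := rfl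
    omega
  have hcnt : ∀ c ∈ range n, (((badPairs n).filter (fun t => b t = c)).card : ℝ) ≤
      ((n : ℝ) ^ 12) ^ (c + 1) := by
    intro c _
    have h1 : ((badPairs n).filter (fun t => b t = c)) ⊆
        (univ : Finset (Fin n)) ×ˢ ((univ : Finset (Fin n)) ×ˢ
          ((univ : Finset (Fin n → Fin n)).filter
            (fun f => (univ.filter (fun x => f x ≠ x)).card ≤ 3 * c + 5))) := by
      intro t ht
      rw [mem_filter] at ht
      rw [mem_product, mem_product, mem_filter]
      refine ⟨mem_univ _, mem_univ _, mem_univ _, ?_⟩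
      have h2 : univ.filter (fun x => t.2.2 x ≠ x) ⊆ mv t ∪ {t.1, t.2.1} := by
        intro x hx
        rw [mem_filter] at hx
        rw [mem_union, mem_filter, mem_insert, mem_singleton]
        by_cases h3 : x = t.1
        · exact Or.inr (Or.inl h3)
        · by_cases h4 : x = t.2.1
          · exact Or.inr (Or.inr h4)
          · exact Or.inl ⟨mem_univ _, ⟨h3, h4⟩, hx.2⟩
      have h3 := card_le_card h2
      have h4 := card_union_le (mv t) {t.1, t.2.1}
      have h5 : ({t.1, t.2.1} : Finset (Fin n)).card ≤ 2 := card_le_two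
      have h6 : b t = ((mv t).card + 2) / 3 - 1 := rfl
      have h7 := ht.2
      have h8 := hmvpos t ht.1
      omega
    have h2 := card_le_card h1
    rw [card_product, card_product, card_univ, Fintype.card_fin] at h2
    have h3 := card_moved_le n (3 * c + 5) (by omega)
    have h4 : ((badPairs n).filter (fun t => b t = c)).card ≤ n ^ (12 * (c + 1)) := by
      calc _ ≤ n * (n * n ^ (2 * (3 * c + 5))) :=
            h2.trans (Nat.mul_le_mul_left _ (Nat.mul_le_mul_left _ h3))
        _ = n ^ (6 * c + 12) := by ring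
        _ ≤ n ^ (12 * (c + 1)) := Nat.pow_le_pow_right (by omega) (by omega)
    rw [← pow_mul]
    exact_mod_cast h4
  calc ((∑ t ∈ badPairs n, fixCount n t : ℕ) : ℝ)
      = ∑ t ∈ badPairs n, (fixCount n t : ℝ) := by push_cast; rfl
    _ ≤ ∑ t ∈ badPairs n, 2 ^ (n.choose 2) * (1 / 2 ^ m : ℝ) ^ (b t + 1) := sum_le_sum hfix
    _ = ∑ c ∈ range n, ∑ t ∈ (badPairs n).filter (fun t => b t = c),
          2 ^ (n.choose 2) * (1 / 2 ^ m : ℝ) ^ (b t + 1) :=
        (sum_fiberwise_of_maps_to hbn _).symm
    _ = ∑ c ∈ range n, (((badPairs n).filter (fun t => b t = c)).card : ℝ) *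
          (2 ^ (n.choose 2) * (1 / 2 ^ m : ℝ) ^ (c + 1)) := by
        apply sum_congr rfl
        intro c _
        rw [← nsmul_eq_mul, ← sum_const]
        apply sum_congr rfl
        intro t ht
        rw [(mem_filter.1 ht).2]
    _ ≤ ∑ c ∈ range n, ((n : ℝ) ^ 12) ^ (c + 1) *
          (2 ^ (n.choose 2) * (1 / 2 ^ m : ℝ) ^ (c + 1)) := by
        apply sum_le_sum
        intro c hc
        exact mul_le_mul_of_nonneg_right (hcnt c hc) (by positivity)
    _ = 2 ^ (n.choose 2) * ∑ c ∈ range n, q ^ (c + 1) := by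
        rw [mul_sum]
        apply sum_congr rfl
        intro c _
        rw [hq, div_pow, div_pow, one_pow]
        ring
    _ ≤ 2 ^ (n.choose 2) * (2 * q * (1 - (1 / 2) ^ n)) :=
        mul_le_mul_of_nonneg_left (geom_le q hq0 hq1 n) (by positivity)
    _ ≤ 2 ^ (n.choose 2) * (2 * q) := by
        apply mul_le_mul_of_nonneg_left _ (by positivity)
        have : (0 : ℝ) ≤ (1 / 2) ^ n := by positivity
        nlinarith
    _ = 2 * q * 2 ^ (n.choose 2) := by ring

end SwR
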