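import Mathlib

/-! Two-graphs and switching classes: definitions and basic lemmas (MP_87adae_co) -/

open Finset

namespace SwR

variable {V W U : Type*}

/-- The graph `X^τ` obtained from `X` by switching on `τ`. -/
def switch (X : SimpleGraph V) (τ : Set V) : SimpleGraph V where
  Adj u w := u ≠ w ∧ (X.Adj u w ↔ (u ∈ τ ↔ w ∈ τ))
  symm := ⟨fun u w h => ⟨h.1.symm, by rw [X.adj_comm, h.2]; exact Iff.comm⟩⟩
  loopless := ⟨fun u h => h.1 rfl⟩

/-- `X` and `Y` are switching equivalent: `Y ≅ X^τ` for some `τ`. -/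
def SwEq (X : SimpleGraph V) (Y : SimpleGraph W) : Prop :=
  ∃ τ : Set V, Nonempty (Y ≃g switch X τ)

/-- The card `X - v`. -/
abbrev card (X : SimpleGraph V) (v : V) : SimpleGraph ({v}ᶜ : Set V) := X.induce {v}ᶜ

open Classical in
/-- adjacency function with values in `ℤ/2` -/
noncomputable def g (X : SimpleGraph V) (x y : V) : ZMod 2 := if X.Adj x y then 1 else 0

/-- the two-graph of `X`: number of edges modulo 2 on the triple -/
noncomputable def T (X : SimpleGraph V) (x y z : V) : ZMod 2 := g X x y + g X y z + g X x z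

/-- `f` preserves the two-graph on the complement of `{u, v}` -/
def Pres (X : SimpleGraph V) (u v : V) (f : V → V) : Prop :=
  ∀ x y z : V, (x ≠ u ∧ x ≠ v) → (y ≠ u ∧ y ≠ v) → (z ≠ u ∧ z ≠ v) →
    T X x y z = T X (f x) (f y) (f z)

/-- `f` is injective on the complement of `{u, v}` -/
def Inj2 (u v : V) (f : V → V) : Prop :=
  ∀ x y : V, (x ≠ u ∧ x ≠ v) → (y ≠ u ∧ y ≠ v) → f x = f y → x = y

/-- all isomorphisms between the two-graphs induced on subsets of size at least `n - 2` are
identities -/
def Rigid (X : SimpleGraph V) : Prop :=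
  ∀ (u v : V) (f : V → V), Inj2 u v f → Pres X u v f → ∀ x, (x ≠ u ∧ x ≠ v) → f x = x

theorem g_self (X : SimpleGraph V) (x : V) : g X x x = 0 := by
  unfold g; rw [if_neg]; exact fun h => h.ne rfl

theorem g_symm (X : SimpleGraph V) (x y : V) : g X x y = g X y x := by
  unfold g; rw [X.adj_comm]

theorem g_eq_iff (X : SimpleGraph V) (Y : SimpleGraph W) (x y : V) (a b : W) :
    g X x y = g Y a b ↔ (X.Adj x y ↔ Y.Adj a b) := by
  unfold g
  by_cases h1 : X.Adj x y <;> by_cases h2 : Y.Adj a b <;> simp [h1, h2]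

theorem ext_g {X Y : SimpleGraph V} (h : ∀ x y, g X x y = g Y x y) : X = Y := by
  ext x y; exact (g_eq_iff X Y x y x y).1 (h x y)

theorem two_zero : (2 : ZMod 2) = 0 := rfl

theorem T_cocycle (X : SimpleGraph V) (x y z p : V) :
    T X x y z = T X x y p + T X y z p + T X x z p := by
  unfold T
  linear_combination (-g X y p - g X x p - g X z p) * two_zero

open Classical in
/-- indicator function with values in `ℤ/2` -/
noncomputable def ind (τ : Set V) (x : V) : ZMod 2 := if x ∈ τ then 1 else 0

theorem g_switch (X : SimpleGraph V) (τ : Set V) (x y : V) :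
    g (switch X τ) x y = g X x y + ind τ x + ind τ y := by
  by_cases hxy : x = y
  · subst hxy
    rw [g_self, g_self]
    linear_combination (-ind τ x) * two_zero
  · unfold g switch ind
    by_cases h1 : X.Adj x y <;> by_cases h2 : x ∈ τ <;> by_cases h3 : y ∈ τ <;>
      simp [h1, h2, h3, hxy] <;> decide

theorem swEq_iff (X : SimpleGraph V) (Y : SimpleGraph W) :
    SwEq X Y ↔ ∃ φ : V ≃ W, ∀ x y z, T X x y z = T Y (φ x) (φ y) (φ z) := by
  constructor
  · rintro ⟨τ, ⟨e⟩⟩
    refine ⟨e.symm.toEquiv, fun x y z => ?_⟩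
    have key : ∀ x y, g Y (e.symm x) (e.symm y) = g X x y + ind τ x + ind τ y := by
      intro x y
      rw [← g_switch, g_eq_iff]
      exact e.symm.map_adj_iff
    change T X x y z = T Y (e.symm x) (e.symm y) (e.symm z)
    unfold T
    rw [key, key, key]
    linear_combination (-ind τ x - ind τ y - ind τ z) * two_zero
  · rintro ⟨φ, hφ⟩
    rcases isEmpty_or_nonempty V with hV | ⟨⟨v0⟩⟩
    · refine ⟨∅, ⟨⟨φ.symm, ?_⟩⟩⟩
      intro a
      exact (hV.false (φ.symm a)).elim
    · refine ⟨{x | g X v0 x ≠ g Y (φ v0) (φ x)}, ⟨⟨φ.symm, ?_⟩⟩⟩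
      intro a b
      obtain ⟨x, rfl⟩ := φ.surjective a
      obtain ⟨y, rfl⟩ := φ.surjective b
      have h1 : ∀ x, ind {x | g X v0 x ≠ g Y (φ v0) (φ x)} x =
          g X v0 x + g Y (φ v0) (φ x) := by
        intro x
        unfold ind
        split_ifs with h
        · have h' : g X v0 x ≠ g Y (φ v0) (φ x) := h
          revert h'
          generalize g X v0 x = a
          generalize g Y (φ v0) (φ x) = b
          clear h
          revert a b; decide
        · have h' : ¬ (g X v0 x ≠ g Y (φ v0) (φ x)) := h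
          rw [not_not.1 h']
          linear_combination (-g Y (φ v0) (φ x)) * two_zero
      have h2 := hφ v0 x y
      unfold T at h2
      change (switch X _).Adj (φ.symm (φ x)) (φ.symm (φ y)) ↔ Y.Adj (φ x) (φ y)
      rw [φ.symm_apply_apply, φ.symm_apply_apply, ← g_eq_iff, g_switch, h1, h1]
      linear_combination h2 + (g Y (φ v0) (φ x) + g Y (φ v0) (φ y)) * two_zero

end SwR
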