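import Pool.Agent.Helper69.SwR.Rig

/-! Regular two-graphs are determined by any three cards and by no two cards -/

open Finset

namespace SwR

variable {V W : Type*}

theorem T_swap12 (X : SimpleGraph V) (x y z : V) : T X x y z = T X y x z := by
  unfold T; rw [g_symm X x y]; ring

theorem T_swap23 (X : SimpleGraph V) (x y z : V) : T X x y z = T X x z y := by
  unfold T; rw [g_symm X y z]; ring

theorem T_same12 (X : SimpleGraph V) (x z : V) : T X x x z = 0 := by
  unfold T; rw [g_self]
  linear_combination g X x z * two_zero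

/-- cards of equal type give bijections of the vertex sets -/
theorem exists_equiv_of_card [Finite V] {X Y : SimpleGraph V} {v w : V}
    (h : SwEq (card X v) (card Y w)) : ∃ E : V ≃ V, E v = w ∧
      ∀ x y z, x ≠ v → y ≠ v → z ≠ v → T X x y z = T Y (E x) (E y) (E z) := by
  classical
  obtain ⟨φ, hφ⟩ := (swEq_iff _ _).1 h
  let F : V → V := fun x => if h : x = v then w else φ ⟨x, h⟩
  have F_ne : ∀ x (h : x ≠ v), F x = φ ⟨x, h⟩ := fun x h => dif_neg h
  have F_eq : F v = w := dif_pos rfl
  have F_ne_w : ∀ x, x ≠ v → F x ≠ w := by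
    intro x h
    rw [F_ne x h]
    exact (φ ⟨x, h⟩).2
  have F_inj : Function.Injective F := by
    intro x y hxy
    by_cases hx : x = v
    · by_cases hy : y = v
      · rw [hx, hy]
      · rw [hx, F_eq] at hxy
        exact absurd hxy.symm (F_ne_w y hy)
    · by_cases hy : y = v
      · rw [hy, F_eq] at hxy
        exact absurd hxy (F_ne_w x hx)
      · rw [F_ne x hx, F_ne y hy] at hxy
        exact congrArg Subtype.val (φ.injective (Subtype.ext hxy))
  refine ⟨Equiv.ofBijective F (Finite.injective_iff_bijective.1 F_inj), F_eq, ?_⟩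
  intro x y z hx hy hz
  have h1 := hφ ⟨x, hx⟩ ⟨y, hy⟩ ⟨z, hz⟩
  rw [T_induce, T_induce] at h1
  change T X x y z = T Y (F x) (F y) (F z)
  rw [F_ne x hx, F_ne y hy, F_ne z hz]
  exact h1

/-- a function on triples which is symmetric, alternating and satisfies the cocycle identity -/
structure IsTG (t : V → V → V → ZMod 2) : Prop where
  swap12 : ∀ x y z, t x y z = t y x z
  swap23 : ∀ x y z, t x y z = t x z y
  same : ∀ x z, t x x z = 0
  coc : ∀ x y z p, t x y z = t x y p + t y z p + t x z p

theorem isTG_T (X : SimpleGraph V) : IsTG (T X) :=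
  ⟨T_swap12 X, T_swap23 X, T_same12 X, T_cocycle X⟩

theorem isTG_comp {t : W → W → W → ZMod 2} (ht : IsTG t) (f : V → W) :
    IsTG (fun x y z => t (f x) (f y) (f z)) :=
  ⟨fun _ _ _ => ht.swap12 _ _ _, fun _ _ _ => ht.swap23 _ _ _, fun _ _ => ht.same _ _,
    fun _ _ _ _ => ht.coc _ _ _ _⟩

/-- number of triples through a pair -/
def dg [Fintype V] (t : V → V → V → ZMod 2) (x y : V) : ℕ :=
  (univ.filter fun z => t x y z = 1).card

theorem IsTG.same13 {t : V → V → V → ZMod 2} (ht : IsTG t) (x y : V) : t x y x = 0 := by
  rw [ht.swap23, ht.same]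

theorem IsTG.same23 {t : V → V → V → ZMod 2} (ht : IsTG t) (x y : V) : t x y y = 0 := by
  rw [ht.swap12, ht.same13]

theorem z2_ne_one {a : ZMod 2} (h : a ≠ 1) : a = 0 := by revert a; decide

theorem z2_ne_zero {a : ZMod 2} (h : a ≠ 0) : a = 1 := by revert a; decide

theorem z2_cases (a : ZMod 2) : a = 0 ∨ a = 1 := by revert a; decide

/-- no pair of a nontrivial regular two-graph is constant up to one point -/
theorem IsTG.no_const [Fintype V] [DecidableEq V] {t : V → V → V → ZMod 2} (ht : IsTG t)
    (hV : 4 ≤ Fintype.card V) {a : ℕ} (ha : ∀ x y, x ≠ y → dg t x y = a) {q r s : V}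
    (hqr : q ≠ r) (γ : ZMod 2)
    (hc : ∀ x, x ≠ q → x ≠ r → x ≠ s → t x q r = γ) {x y z z' : V} (hxy : x ≠ y)
    (hxz : x ≠ z) (hyz : y ≠ z) (hxz' : x ≠ z') (hyz' : y ≠ z')
    (h : t x y z + t x y z' = 1) : False := by
  -- the two trivial cases
  have triv0 : a = 0 → False := by
    intro h0
    have h1 : ∀ z, t x y z = 0 := by
      intro z
      by_contra hne
      have h2 := ha x y hxy
      rw [h0] at h2
      unfold dg at h2
      rw [card_eq_zero, filter_eq_empty_iff] at h2
      exact h2 (mem_univ z) (z2_ne_zero hne)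
    rw [h1, h1] at h
    exact absurd h (by decide)
  have hsub : ∀ x y, x ≠ y → (univ.filter fun z => t x y z = 1) ⊆ (univ.erase x).erase y := by
    intro x y _ z hz
    rw [mem_filter] at hz
    rw [mem_erase, mem_erase]
    refine ⟨?_, ?_, mem_univ _⟩
    · rintro rfl
      rw [ht.same23] at hz
      exact absurd hz.2 (by decide)
    · rintro rfl
      rw [ht.same13] at hz
      exact absurd hz.2 (by decide)
  have hcard : ∀ x y : V, x ≠ y → ((univ.erase x).erase y).card = Fintype.card V - 2 := by
    intro x y hxy
    rw [card_erase_of_mem (mem_erase.2 ⟨hxy.symm, mem_univ _⟩), card_erase_of_mem (mem_univ _),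
      card_univ]
    omega
  have hle : a ≤ Fintype.card V - 2 := by
    rw [← ha x y hxy, ← hcard x y hxy]
    exact card_le_card (hsub x y hxy)
  have trivn : a = Fintype.card V - 2 → False := by
    intro hn
    have h1 : ∀ z, x ≠ z → y ≠ z → t x y z = 1 := by
      intro z hxz hyz
      have h2 := eq_of_subset_of_card_le (hsub x y hxy) (by
        rw [hcard x y hxy, ← hn, ← ha x y hxy]; exact le_rfl)
      have h3 : z ∈ univ.filter fun z => t x y z = 1 := by
        rw [h2, mem_erase, mem_erase]
        exact ⟨hyz.symm, hxz.symm, mem_univ _⟩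
      exact (mem_filter.1 h3).2
    rw [h1 z hxz hyz, h1 z' hxz' hyz'] at h
    exact absurd h (by decide)
  -- a fourth point
  have four : ∀ x y z : V, ∃ w, w ≠ x ∧ w ≠ y ∧ w ≠ z := by
    intro x y z
    by_contra hcon
    push Not at hcon
    have : (univ : Finset V) ⊆ {x, y, z} := by
      intro w _
      rw [mem_insert, mem_insert, mem_singleton]
      by_cases h1 : w = x
      · exact Or.inl h1
      · by_cases h2 : w = y
        · exact Or.inr (Or.inl h2)
        · exact Or.inr (Or.inr (hcon w h1 h2))
    have := card_le_card this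
    rw [card_univ] at this
    have h3 : ({x, y, z} : Finset V).card ≤ 3 := card_le_three
    omega
  rcases z2_cases γ with h0 | h1
  · -- degree at most one
    have hle1 : a ≤ 1 := by
      rw [← ha q r hqr]
      unfold dg
      have : (univ.filter fun z => t q r z = 1) ⊆ {s} := by
        intro z hz
        rw [mem_singleton]
        by_contra hzs
        have h2 := hsub q r hqr hz
        rw [mem_erase, mem_erase] at h2
        have h3 := hc z h2.2.1 h2.1 hzs
        rw [mem_filter] at hz
        rw [ht.swap12, ht.swap23, hz.2, h0] at h3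
        exact absurd h3 (by decide)
      exact (card_le_card this).trans (by simp)
    have ha1 : a = 1 := by
      by_contra hne
      exact triv0 (by omega)
    -- a triple and a fourth point
    obtain ⟨z1, hz1⟩ : (univ.filter fun z => t x y z = 1).Nonempty := by
      rw [← card_pos]
      have := ha x y hxy
      unfold dg at this
      omega
    have hz1' := hsub x y hxy hz1
    rw [mem_erase, mem_erase] at hz1'
    rw [mem_filter] at hz1
    obtain ⟨w, hwx, hwy, hwz⟩ := four x y z1
    have uniq : ∀ x y z w, x ≠ y → t x y z = 1 → w ≠ z → t x y w = 0 := by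
      intro x y z w hxy hz hw
      by_contra hne
      have h2 : 2 ≤ dg t x y := by
        have : ({z, w} : Finset V) ⊆ univ.filter fun z => t x y z = 1 := by
          intro u hu
          rw [mem_insert, mem_singleton] at hu
          rw [mem_filter]
          rcases hu with rfl | rfl
          · exact ⟨mem_univ _, hz⟩
          · exact ⟨mem_univ _, z2_ne_zero hne⟩
        have h3 := card_le_card this
        rw [card_pair hw.symm] at h3
        exact h3
      rw [ha x y hxy] at h2
      omega
    have e1 := uniq x y z1 w hxy hz1.2 hwz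
    have e2 := uniq y z1 x w hz1'.1.symm (by rw [ht.swap23, ht.swap12]; exact hz1.2) hwx
    have e3 := uniq x z1 y w hz1'.2.1.symm (by rw [ht.swap23]; exact hz1.2) hwy
    have e4 := ht.coc x y z1 w
    rw [e1, e2, e3, hz1.2] at e4
    exact absurd e4 (by decide)
  · -- degree at least n - 3
    have hge : Fintype.card V - 3 ≤ a := by
      rw [← ha q r hqr]
      unfold dg
      have : ((univ.erase q).erase r).erase s ⊆ (univ.filter fun z => t q r z = 1) := by
        intro z hz
        rw [mem_erase, mem_erase, mem_erase] at hz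
        rw [mem_filter]
        refine ⟨mem_univ _, ?_⟩
        rw [ht.swap23, ht.swap12]
        rw [← h1]
        exact hc z hz.2.2.1 hz.2.1 hz.1
      have h2 := card_le_card this
      have h3 := pred_card_le_card_erase (s := (univ.erase q).erase r) (a := s)
      rw [hcard q r hqr] at h3
      omega
    have ha1 : a = Fintype.card V - 3 := by
      by_contra hne
      exact trivn (by omega)
    have uniq : ∀ x y z w, x ≠ y → z ≠ x → z ≠ y → t x y z = 0 → w ≠ z → w ≠ x → w ≠ y →
        t x y w = 1 := by
      intro x y z w hxy hzx hzy hz hw hwx hwy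
      by_contra hne
      have h2 : dg t x y ≤ Fintype.card V - 4 := by
        have : (univ.filter fun z => t x y z = 1) ⊆ (((univ.erase x).erase y).erase z).erase w := by
          intro u hu
          have h3 := hsub x y hxy hu
          rw [mem_erase, mem_erase] at h3
          rw [mem_filter] at hu
          rw [mem_erase, mem_erase, mem_erase, mem_erase]
          refine ⟨?_, ?_, h3.1, h3.2.1, mem_univ _⟩
          · rintro rfl
            exact hne hu.2
          · rintro rfl
            rw [hz] at hu
            exact absurd hu.2 (by decide)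
        have h3 := card_le_card this
        rw [card_erase_of_mem, card_erase_of_mem, hcard x y hxy] at h3
        · unfold dg; omega
        · rw [mem_erase, mem_erase]; exact ⟨hzy, hzx, mem_univ _⟩
        · rw [mem_erase, mem_erase, mem_erase]; exact ⟨hw, hwy, hwx, mem_univ _⟩
      rw [ha x y hxy] at h2
      omega
    obtain ⟨z1, hz1, hz1'⟩ : ∃ z1 ∈ (univ.erase x).erase y, t x y z1 ≠ 1 := by
      by_contra hcon
      push Not at hcon
      have : (univ.erase x).erase y ⊆ univ.filter fun z => t x y z = 1 := by
        intro z hz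
        rw [mem_filter]
        exact ⟨mem_univ _, hcon z hz⟩
      have h2 := card_le_card this
      rw [hcard x y hxy] at h2
      have h3 := ha x y hxy
      unfold dg at h3
      omega
    rw [mem_erase, mem_erase] at hz1
    have hz0 := z2_ne_one hz1'
    obtain ⟨w, hwx, hwy, hwz⟩ := four x y z1
    have e1 := uniq x y z1 w hxy hz1.2.1 hz1.1 hz0 hwz hwx hwy
    have e2 := uniq y z1 x w hz1.1.symm hxy hz1.2.1.symm (by rw [ht.swap23, ht.swap12]; exact hz0)
      hwx hwy hwz
    have e3 := uniq x z1 y w hz1.2.1.symm hxy.symm hz1.1.symm (by rw [ht.swap23]; exact hz0)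
      hwy hwx hwz
    have e4 := ht.coc x y z1 w
    rw [e1, e2, e3, hz0] at e4
    exact absurd e4 (by decide)

theorem z2_add_eq_one {a b : ZMod 2} (h : a ≠ b) : a + b = 1 := by revert a b; decide

theorem z2_ne_of_add {a b : ZMod 2} (h : a + b = 1) : a ≠ b := by revert a b; decide

/-- the degree of a pair after deleting a point -/
theorem dg_delete [Fintype V] [DecidableEq V] (t : V → V → V → ZMod 2) (x y p : V) :
    dg t x y = ((univ.erase p).filter fun z => t x y z = 1).card +
      (if t x y p = 1 then 1 else 0) := by
  unfold dg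
  have h : (univ.erase p).filter (fun z => t x y z = 1) =
      (univ.filter fun z => t x y z = 1).erase p := by
    ext z
    simp only [mem_filter, mem_erase, mem_univ, and_true, true_and]
  rw [h]
  split_ifs with h1
  · rw [card_erase_add_one]
    rw [mem_filter]; exact ⟨mem_univ _, h1⟩
  · rw [erase_eq_of_notMem, add_zero]
    rw [mem_filter]; exact fun h2 => h1 h2.2

/-- the two-graph of `X` is regular: all pairs are in the same number of triples -/
def RegularTG [Fintype V] (X : SimpleGraph V) : Prop :=
  ∃ a : ℕ, ∀ x y : V, x ≠ y → dg (T X) x y = a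

/-- Regular two-graphs are determined by any three cards. -/
theorem RegularTG.threeCards [Fintype V] (hV : 4 ≤ Fintype.card V) {X : SimpleGraph V}
    (hX : RegularTG X) : ThreeCards X := by
  classical
  intro Y v w hv hw hc
  obtain ⟨a, ha⟩ := hX
  choose E hEv hE using fun i => exists_equiv_of_card (hc i)
  set t := T X with htdef
  have ht : IsTG t := isTG_T X
  let t' : V → V → V → ZMod 2 := fun x y z => T Y (E 0 x) (E 0 y) (E 0 z)
  have ht' : IsTG t' := isTG_comp (isTG_T Y) (E 0)
  let p : Fin 3 → V := fun i => (E 0).symm (w i)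
  have hpinj : Function.Injective p := (E 0).symm.injective.comp hw
  have hp0 : p 0 = v 0 := by
    change (E 0).symm (w 0) = v 0
    rw [← hEv 0, Equiv.symm_apply_apply]
  have hEp : ∀ i, E 0 (p i) = w i := fun i => (E 0).apply_symm_apply (w i)
  have h0 : ∀ x y z, x ≠ p 0 → y ≠ p 0 → z ≠ p 0 → t' x y z = t x y z := by
    intro x y z hx hy hz
    rw [hp0] at hx hy hz
    exact (hE 0 x y z hx hy hz).symm
  -- comparison with the other cards
  let ψ : Fin 3 → V ≃ V := fun i => (E 0).trans (E i).symm
  have hψp : ∀ i, ψ i (p i) = v i := by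
    intro i
    change (E i).symm (E 0 (p i)) = v i
    rw [hEp, ← hEv i, Equiv.symm_apply_apply]
  have hψne : ∀ i x, x ≠ p i → ψ i x ≠ v i := by
    intro i x hx h
    apply hx
    apply (ψ i).injective
    rw [h, hψp]
  have hψ : ∀ i x y z, x ≠ p i → y ≠ p i → z ≠ p i →
      t' x y z = t (ψ i x) (ψ i y) (ψ i z) := by
    intro i x y z hx hy hz
    have h1 := hE i (ψ i x) (ψ i y) (ψ i z) (hψne i x hx) (hψne i y hy) (hψne i z hz)
    rw [h1]
    have h2 : ∀ x, E i (ψ i x) = E 0 x := fun x => (E i).apply_symm_apply (E 0 x)
    rw [h2, h2, h2]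
  -- degrees
  have hdeg : ∀ i x y, x ≠ y → x ≠ p i → y ≠ p i →
      dg t' x y + (if t (ψ i x) (ψ i y) (v i) = 1 then 1 else 0) =
        a + (if t' x y (p i) = 1 then 1 else 0) := by
    intro i x y hxy hx hy
    have h1 := dg_delete t' x y (p i)
    have h2 := dg_delete t (ψ i x) (ψ i y) (v i)
    rw [ha _ _ (fun h => hxy ((ψ i).injective h))] at h2
    have h3 : ((univ.erase (p i)).filter fun z => t' x y z = 1).card =
        ((univ.erase (v i)).filter fun z => t (ψ i x) (ψ i y) z = 1).card := by
      apply card_bij (fun z _ => ψ i z)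
      · intro z hz
        rw [mem_filter, mem_erase] at hz ⊢
        refine ⟨⟨hψne i z hz.1.1, mem_univ _⟩, ?_⟩
        rw [← hψ i x y z hx hy hz.1.1]
        exact hz.2
      · intro z _ z' _ h
        exact (ψ i).injective h
      · intro z hz
        rw [mem_filter, mem_erase] at hz
        have hne : (ψ i).symm z ≠ p i := by
          intro h
          apply hz.1.1
          rw [← hψp i, ← h, Equiv.apply_symm_apply]
        refine ⟨(ψ i).symm z, ?_, Equiv.apply_symm_apply _ _⟩
        rw [mem_filter, mem_erase]
        refine ⟨⟨hne, mem_univ _⟩, ?_⟩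
        rw [hψ i x y _ hx hy hne, Equiv.apply_symm_apply]
        exact hz.2
    omega
  have hdeg0 : ∀ x y, x ≠ y → x ≠ p 0 → y ≠ p 0 →
      dg t' x y + (if t x y (p 0) = 1 then 1 else 0) =
        a + (if t' x y (p 0) = 1 then 1 else 0) := by
    intro x y hxy hx hy
    have h1 := dg_delete t' x y (p 0)
    have h2 := dg_delete t x y (p 0)
    rw [ha _ _ hxy] at h2
    have h3 : ((univ.erase (p 0)).filter fun z => t' x y z = 1) =
        ((univ.erase (p 0)).filter fun z => t x y z = 1) := by
      apply filter_congr
      intro z hz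
      rw [mem_erase] at hz
      rw [h0 x y z hx hy hz.1]
    rw [h3] at h1
    omega
  -- a further point
  obtain ⟨u0, hu0⟩ : ∃ u0, ∀ i, u0 ≠ p i := by
    by_contra hcon
    push Not at hcon
    have h1 : (univ : Finset V) ⊆ univ.image p := by
      intro x _
      obtain ⟨i, hi⟩ := hcon x
      exact mem_image.2 ⟨i, mem_univ _, hi.symm⟩
    have h2 := (card_le_card h1).trans card_image_le
    rw [card_univ, card_univ, Fintype.card_fin] at h2
    omega
  -- the difference function
  let α : V → ZMod 2 := fun x => t' x u0 (p 0) + t x u0 (p 0)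
  have hα : ∀ x y, x ≠ p 0 → y ≠ p 0 → t' x y (p 0) = t x y (p 0) + α x + α y := by
    intro x y hx hy
    have h1 := ht'.coc x y (p 0) u0
    have h2 := ht.coc x y (p 0) u0
    have h3 := h0 x y u0 hx hy (hu0 0)
    have h4 := ht'.swap23 x (p 0) u0
    have h5 := ht.swap23 x (p 0) u0
    have h6 := ht'.swap23 y (p 0) u0
    have h7 := ht.swap23 y (p 0) u0
    change t' x y (p 0) = t x y (p 0) + (t' x u0 (p 0) + t x u0 (p 0)) +
      (t' y u0 (p 0) + t y u0 (p 0))
    rw [h1, h2, h3, h4, h5, h6, h7]
    linear_combination (-(t x u0 (p 0)) - t y u0 (p 0)) * two_zero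
  by_cases hconst : ∀ x y, x ≠ p 0 → y ≠ p 0 → α x = α y
  · -- the two two-graphs coincide
    have h1 : ∀ x y, x ≠ p 0 → y ≠ p 0 → t' x y (p 0) = t x y (p 0) := by
      intro x y hx hy
      rw [hα x y hx hy, hconst x y hx hy]
      linear_combination α y * two_zero
    have h2 : ∀ x y z, t' x y z = t x y z := by
      intro x y z
      by_cases hz : z = p 0
      · by_cases hy : y = p 0
        · rw [hy, hz, ht'.same23, ht.same23]
        · by_cases hx : x = p 0
          · rw [hx, hz, ht'.same13, ht.same13]
          · rw [hz]; exact h1 x y hx hy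
      · by_cases hy : y = p 0
        · by_cases hx : x = p 0
          · rw [hx, hy, ht'.same, ht.same]
          · rw [hy, ht'.swap23, ht.swap23]; exact h1 x z hx hz
        · by_cases hx : x = p 0
          · rw [hx, ht'.swap12, ht.swap12, ht'.swap23, ht.swap23]
            exact h1 y z hy hz
          · exact h0 x y z hx hy hz
    rw [swEq_iff]
    exact ⟨E 0, fun x y z => (h2 x y z).symm⟩
  · exfalso
    push Not at hconst
    obtain ⟨x0, y0, hx0, hy0, hne⟩ := hconst
    -- cross pairs
    have hcross : ∀ i, i ≠ 0 → ∀ x y, x ≠ y → x ≠ p 0 → y ≠ p 0 → x ≠ p i → y ≠ p i →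
        α x ≠ α y → t x y (p i) + t x y (p 0) = 1 := by
      intro i hi x y hxy hx hy hx' hy' hαxy
      have h1 := hdeg i x y hxy hx' hy'
      have h2 := hdeg0 x y hxy hx hy
      have h3 := hα x y hx hy
      have h4 : α x + α y = 1 := z2_add_eq_one hαxy
      have hpi : p i ≠ p 0 := fun h => hi (hpinj h)
      rw [h0 x y (p i) hx hy hpi] at h1
      rcases z2_cases (t x y (p 0)) with h5 | h5
      · have h6 : t' x y (p 0) = 1 := by rw [h3, h5]; linear_combination h4
        rw [h5, h6] at h2
        rw [if_neg (by decide), if_pos rfl] at h2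
        have h7 : t x y (p i) = 1 := by
          by_contra hh
          rw [if_neg hh] at h1
          omega
        rw [h7, h5]; decide
      · have h6 : t' x y (p 0) = 0 := by
          rw [h3, h5]
          have : (1 : ZMod 2) + 1 = 0 := by decide
          linear_combination h4 + this
        rw [h5, h6] at h2
        rw [if_pos rfl, if_neg (by decide)] at h2
        have h7 : t x y (p i) = 0 := by
          by_contra hh
          rw [if_pos (z2_ne_zero hh)] at h1
          split_ifs at h1 <;> omega
        rw [h7, h5]; decide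
    have h10 : p 1 ≠ p 0 := fun h => absurd (hpinj h) (by decide)
    have h20 : p 2 ≠ p 0 := fun h => absurd (hpinj h) (by decide)
    have h21 : p 2 ≠ p 1 := fun h => absurd (hpinj h) (by decide)
    by_cases hU : ∃ x y, (∀ i, x ≠ p i) ∧ (∀ i, y ≠ p i) ∧ α x ≠ α y
    · -- case I
      obtain ⟨x, y, hx, hy, hxy⟩ := hU
      have hxy' : x ≠ y := fun h => hxy (by rw [h])
      have hb : ∀ i, i ≠ 0 → ∀ u u', (∀ i, u ≠ p i) → (∀ i, u' ≠ p i) → α u ≠ α u' →
          t u (p 0) (p i) + t u' (p 0) (p i) = 1 := by
        intro i hi u u' hu hu' huu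
        have huu' : u ≠ u' := fun h => huu (by rw [h])
        have h1 := hcross i hi u u' huu' (hu 0) (hu' 0) (hu i) (hu' i) huu
        have h2 := ht.coc u u' (p 0) (p i)
        linear_combination h1 - h2 - t u u' (p i) * two_zero
      have hsum : ∀ u u', (∀ i, u ≠ p i) → (∀ i, u' ≠ p i) → α u ≠ α u' →
          t u (p 0) (p 1) + t u (p 0) (p 2) = t u' (p 0) (p 1) + t u' (p 0) (p 2) := by
        intro u u' hu hu' huu
        have h1 := hb 1 (by decide) u u' hu hu' huu
        have h2 := hb 2 (by decide) u u' hu hu' huu
        linear_combination h1 - h2 + (t u (p 0) (p 2) - t u' (p 0) (p 1)) * two_zero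
      have hall : ∀ u, (∀ i, u ≠ p i) →
          t u (p 0) (p 1) + t u (p 0) (p 2) = t x (p 0) (p 1) + t x (p 0) (p 2) := by
        intro u hu
        by_cases hux : α u = α x
        · rw [hsum u y hu hy (by rw [hux]; exact hxy), hsum x y hx hy hxy]
        · exact hsum u x hu hx hux
      refine ht.no_const hV ha (q := p 1) (r := p 2) (s := p 0) h21.symm
        (t x (p 0) (p 1) + t x (p 0) (p 2) + t (p 0) (p 1) (p 2)) ?_
        hxy' (hx 1) (hy 1) (hx 0) (hy 0)
        (hcross 1 (by decide) x y hxy' (hx 0) (hy 0) (hx 1) (hy 1) hxy)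
      intro u hu1 hu2 hu0'
      have hu : ∀ i, u ≠ p i := by
        intro i
        fin_cases i
        · exact hu0'
        · exact hu1
        · exact hu2
      rw [← hall u hu]
      have h1 := ht.coc u (p 1) (p 2) (p 0)
      rw [h1, ht.swap23 u (p 1) (p 0), ht.swap23 u (p 2) (p 0), ht.swap23 (p 1) (p 2) (p 0),
        ht.swap12 (p 1) (p 0) (p 2)]
      ring
    · -- case II
      push Not at hU
      have hcU : ∀ u, (∀ i, u ≠ p i) → α u = α u0 := fun u hu => hU u u0 hu hu0
      have hor : α (p 1) ≠ α u0 ∨ α (p 2) ≠ α u0 := by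
        by_contra hcon
        push Not at hcon
        have hall : ∀ x, x ≠ p 0 → α x = α u0 := by
          intro x hx
          by_cases h1 : x = p 1
          · rw [h1]; exact hcon.1
          · by_cases h2 : x = p 2
            · rw [h2]; exact hcon.2
            · apply hcU
              intro i
              fin_cases i
              · exact hx
              · exact h1
              · exact h2
        exact hne ((hall x0 hx0).trans (hall y0 hy0).symm)
      rcases hor with h1 | h1
      · have hcr : ∀ u, (∀ i, u ≠ p i) → t (p 1) u (p 2) + t (p 1) u (p 0) = 1 := by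
          intro u hu
          exact hcross 2 (by decide) (p 1) u (hu 1).symm h10 (hu 0) h21.symm (hu 2)
            (by rw [hcU u hu]; exact h1)
        refine ht.no_const hV ha (q := p 0) (r := p 2) (s := p 1) h20.symm
          (1 + t (p 0) (p 1) (p 2)) ?_ (hu0 1).symm h21.symm (hu0 2) h10 (hu0 0)
          (hcr u0 hu0)
        intro u hu0' hu2 hu1
        have hu : ∀ i, u ≠ p i := by
          intro i
          fin_cases i
          · exact hu0'
          · exact hu1
          · exact hu2
        have h2 := hcr u hu
        rw [ht.coc u (p 0) (p 2) (p 1), ← h2, ht.swap12 (p 1) u (p 2), ht.swap12 (p 1) u (p 0),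
          ht.swap23 u (p 1) (p 2), ht.swap23 u (p 1) (p 0), ht.swap23 (p 0) (p 2) (p 1)]
        ring
      · have hcr : ∀ u, (∀ i, u ≠ p i) → t (p 2) u (p 1) + t (p 2) u (p 0) = 1 := by
          intro u hu
          exact hcross 1 (by decide) (p 2) u (hu 2).symm h20 (hu 0) h21 (hu 1)
            (by rw [hcU u hu]; exact h1)
        refine ht.no_const hV ha (q := p 0) (r := p 1) (s := p 2) h10.symm
          (1 + t (p 0) (p 2) (p 1)) ?_ (hu0 2).symm h21 (hu0 1) h20 (hu0 0)
          (hcr u0 hu0)
        intro u hu0' hu1 hu2
        have hu : ∀ i, u ≠ p i := by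
          intro i
          fin_cases i
          · exact hu0'
          · exact hu1
          · exact hu2
        have h2 := hcr u hu
        rw [ht.coc u (p 0) (p 1) (p 2), ← h2, ht.swap12 (p 2) u (p 1), ht.swap12 (p 2) u (p 0),
          ht.swap23 u (p 2) (p 1), ht.swap23 u (p 2) (p 0), ht.swap23 (p 0) (p 1) (p 2)]
        ring

theorem card_toggle_left (X : SimpleGraph V) (u v : V) : card (toggle X u v) u = card X u := by
  apply ext_g
  intro a b
  rw [g_induce, g_induce, g_toggle_of_not]
  rintro (h | h)
  · exact a.2 h.1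
  · exact b.2 h.2

theorem card_toggle_right (X : SimpleGraph V) (u v : V) : card (toggle X u v) v = card X v := by
  apply ext_g
  intro a b
  rw [g_induce, g_induce, g_toggle_of_not]
  rintro (h | h)
  · exact b.2 h.2
  · exact a.2 h.1

/-- Regular two-graphs are not determined by two cards. -/
theorem RegularTG.notTwoCards [Fintype V] (hV : 3 ≤ Fintype.card V) {X : SimpleGraph V}
    (hX : RegularTG X) : NotTwoCards X := by
  classical
  intro u v huv
  obtain ⟨a, ha⟩ := hX
  refine ⟨toggle X u v, ?_, ?_, ?_⟩
  · rw [card_toggle_left]; exact SwEq.refl _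
  · rw [card_toggle_right]; exact SwEq.refl _
  · intro h
    obtain ⟨φ, hφ⟩ := (swEq_iff _ _).1 h
    obtain ⟨z, hz⟩ : ∃ z, z ∉ ({u, v} : Finset V) := by
      by_contra h
      push Not at h
      have : Fintype.card V ≤ 2 := by
        have h3 : ({u, v} : Finset V).card ≤ 2 := Finset.card_le_two
        exact le_trans (Finset.card_le_card (fun a _ => h a)) h3
      omega
    simp only [Finset.mem_insert, Finset.mem_singleton, not_or] at hz
    have h1 : dg (T (toggle X u v)) u z = a := by
      rw [← ha (φ.symm u) (φ.symm z) (fun h => hz.1 (φ.symm.injective h).symm)]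
      symm
      unfold dg
      apply card_bij (fun w _ => φ w)
      · intro w hw
        rw [mem_filter] at hw ⊢
        refine ⟨mem_univ _, ?_⟩
        have h2 := hφ (φ.symm u) (φ.symm z) w
        rw [Equiv.apply_symm_apply, Equiv.apply_symm_apply] at h2
        rw [← h2]; exact hw.2
      · intro w _ w' _ h; exact φ.injective h
      · intro w hw
        rw [mem_filter] at hw
        refine ⟨φ.symm w, ?_, Equiv.apply_symm_apply _ _⟩
        rw [mem_filter]
        refine ⟨mem_univ _, ?_⟩
        have h2 := hφ (φ.symm u) (φ.symm z) (φ.symm w)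
        rw [Equiv.apply_symm_apply, Equiv.apply_symm_apply, Equiv.apply_symm_apply] at h2
        rw [h2]; exact hw.2
    have h2 := dg_delete (T (toggle X u v)) u z v
    have h3 := dg_delete (T X) u z v
    rw [ha u z (fun h => hz.1 h.symm)] at h3
    have h4 : ((univ.erase v).filter fun w => T (toggle X u v) u z w = 1) =
        ((univ.erase v).filter fun w => T X u z w = 1) := by
      apply filter_congr
      intro w hw
      rw [mem_erase] at hw
      rw [T_toggle_right X huv hz.2 hw.1]
    rw [h4] at h2
    have h5 : T (toggle X u v) u z v = T X u z v + 1 := by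
      unfold T
      rw [g_toggle_of_not X (a := u) (b := z) (by tauto),
        g_toggle_of_not X (a := z) (b := v) (by tauto)]
      have h6 := z2_add_eq_one (g_toggle_ne X huv)
      linear_combination h6 - g X u v * two_zero
    rcases z2_cases (T X u z v) with h6 | h6
    · rw [h6, zero_add] at h5
      rw [h5, if_pos rfl] at h2
      rw [h6, if_neg (by decide)] at h3
      omega
    · rw [h6] at h5
      have h7 : (1 : ZMod 2) + 1 = 0 := by decide
      rw [h5, h7, if_neg (by decide)] at h2
      rw [h6, if_pos rfl] at h3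
      omega

end SwR
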