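import Pool.Agent.Helper69.SwR.Defs

/-! Rigid two-graphs are determined by any three cards and by no two cards -/

open Finset

namespace SwR

variable {V W : Type*}

theorem g_induce (X : SimpleGraph V) (s : Set V) (a b : s) : g (X.induce s) a b = g X a b := by
  rw [g_eq_iff]; rfl

theorem T_induce (X : SimpleGraph V) (s : Set V) (a b c : s) :
    T (X.induce s) a b c = T X a b c := by
  unfold T; rw [g_induce, g_induce, g_induce]

theorem SwEq.refl (X : SimpleGraph V) : SwEq X X := by
  rw [swEq_iff]; exact ⟨Equiv.refl _, fun _ _ _ => rfl⟩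

theorem SwEq.symm {X : SimpleGraph V} {Y : SimpleGraph W} (h : SwEq X Y) : SwEq Y X := by
  rw [swEq_iff] at h ⊢
  obtain ⟨φ, hφ⟩ := h
  refine ⟨φ.symm, fun x y z => ?_⟩
  rw [hφ]; simp

theorem SwEq.trans {U : Type*} {X : SimpleGraph V} {Y : SimpleGraph W} {Z : SimpleGraph U}
    (h : SwEq X Y) (h' : SwEq Y Z) : SwEq X Z := by
  rw [swEq_iff] at h h' ⊢
  obtain ⟨φ, hφ⟩ := h
  obtain ⟨ψ, hψ⟩ := h'
  refine ⟨φ.trans ψ, fun x y z => ?_⟩
  rw [hφ, hψ]; simp

/-- the class of `X` is determined by any three cards -/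
def ThreeCards (X : SimpleGraph V) : Prop :=
  ∀ (Y : SimpleGraph V) (v w : Fin 3 → V), Function.Injective v → Function.Injective w →
    (∀ i, SwEq (card X (v i)) (card Y (w i))) → SwEq X Y

/-- no two cards determine the class of `X` -/
def NotTwoCards (X : SimpleGraph V) : Prop :=
  ∀ u v : V, u ≠ v → ∃ Y : SimpleGraph V, SwEq (card X u) (card Y u) ∧
    SwEq (card X v) (card Y v) ∧ ¬ SwEq X Y

/-- switching equivalence of decks -/
def DeckEq (X : SimpleGraph V) (Y : SimpleGraph W) : Prop :=
  ∃ π : V ≃ W, ∀ v, SwEq (card X v) (card Y (π v))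

/-- the class `[[X]]` is reconstructible -/
def Reconstructible (X : SimpleGraph V) : Prop :=
  ∀ Y : SimpleGraph V, DeckEq Y X → SwEq X Y

theorem reconstructible_of_threeCards [Fintype V] (hV : 3 ≤ Fintype.card V) {X : SimpleGraph V}
    (h : ThreeCards X) : Reconstructible X := by
  rintro Y ⟨π, hπ⟩
  obtain ⟨e⟩ : Nonempty (Fin 3 ↪ V) := by
    rw [Function.Embedding.nonempty_iff_card_le]; simpa using hV
  refine h Y e (fun i => π.symm (e i)) e.injective (π.symm.injective.comp e.injective) ?_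
  intro i
  have := (hπ (π.symm (e i))).symm
  rw [π.apply_symm_apply] at this
  exact this

/-- rigid two-graphs are determined by any three cards -/
theorem Rigid.threeCards [Fintype V] (hV : 4 ≤ Fintype.card V) {X : SimpleGraph V}
    (hX : Rigid X) : ThreeCards X := by
  classical
  intro Y v w hv hw hc
  have hc' : ∀ i, ∃ φ : ({v i}ᶜ : Set V) ≃ ({w i}ᶜ : Set V),
      ∀ x y z : ({v i}ᶜ : Set V), T X x y z = T Y (φ x) (φ y) (φ z) := by
    intro i
    obtain ⟨φ, hφ⟩ := (swEq_iff _ _).1 (hc i)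
    refine ⟨φ, fun x y z => ?_⟩
    have := hφ x y z
    rwa [T_induce, T_induce] at this
  choose φ hφ using hc'
  -- total extensions of the maps
  let F : Fin 3 → V → V := fun i x => if h : x = v i then w i else φ i ⟨x, h⟩
  have F_ne : ∀ i x (h : x ≠ v i), F i x = φ i ⟨x, h⟩ := fun i x h => dif_neg h
  have F_eq : ∀ i, F i (v i) = w i := fun i => dif_pos rfl
  have F_ne_w : ∀ i x, x ≠ v i → F i x ≠ w i := by
    intro i x h
    rw [F_ne i x h]
    exact (φ i ⟨x, h⟩).2
  have F_inj : ∀ i, Function.Injective (F i) := by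
    intro i x y hxy
    by_cases hx : x = v i
    · by_cases hy : y = v i
      · rw [hx, hy]
      · rw [hx, F_eq] at hxy
        exact absurd hxy.symm (F_ne_w i y hy)
    · by_cases hy : y = v i
      · rw [hy, F_eq] at hxy
        exact absurd hxy (F_ne_w i x hx)
      · rw [F_ne i x hx, F_ne i y hy] at hxy
        have := (φ i).injective (Subtype.ext hxy)
        exact congrArg Subtype.val this
  have F_bij : ∀ i, Function.Bijective (F i) := fun i =>
    (Finite.injective_iff_bijective).1 (F_inj i)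
  have F_T : ∀ i x y z, x ≠ v i → y ≠ v i → z ≠ v i →
      T X x y z = T Y (F i x) (F i y) (F i z) := by
    intro i x y z hx hy hz
    rw [F_ne i x hx, F_ne i y hy, F_ne i z hz]
    exact hφ i ⟨x, hx⟩ ⟨y, hy⟩ ⟨z, hz⟩
  let E : Fin 3 → V ≃ V := fun i => Equiv.ofBijective (F i) (F_bij i)
  have E_apply : ∀ i x, E i x = F i x := fun _ _ => rfl
  -- comparison of two of the maps
  have key : ∀ i j, i ≠ j → (∀ x, x ≠ v i → x ≠ (E i).symm (w j) → F i x = F j x) ∧
      F i (v j) = w j := by
    intro i j hij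
    have hji : w j ≠ w i := fun h => hij (hw h).symm
    have h1 : ∀ x, (x ≠ v i ∧ x ≠ (E i).symm (w j)) → (E j).symm (F i x) = x := by
      apply hX (v i) ((E i).symm (w j)) (fun x => (E j).symm (F i x))
      · intro x y _ _ hxy
        exact F_inj i ((E j).symm.injective hxy)
      · intro x y z hx hy hz
        have hh : ∀ x, (x ≠ v i ∧ x ≠ (E i).symm (w j)) → (E j).symm (F i x) ≠ v j := by
          intro x hx h
          have h2 : F i x = w j := by
            have : F i x = E j (v j) := by rw [← h, Equiv.apply_symm_apply]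
            rw [this, E_apply, F_eq]
          apply hx.2
          rw [← h2, ← E_apply, Equiv.symm_apply_apply]
        rw [F_T i x y z hx.1 hy.1 hz.1, F_T j _ _ _ (hh x hx) (hh y hy) (hh z hz)]
        simp only [← E_apply, Equiv.apply_symm_apply]
    have h2 : ∀ x, x ≠ v i → x ≠ (E i).symm (w j) → F i x = F j x := by
      intro x hx hx'
      have h3 := h1 x ⟨hx, hx'⟩
      have h4 : F i x = E j x := by rw [← h3, Equiv.apply_symm_apply, h3]
      rw [h4, E_apply]
    refine ⟨h2, ?_⟩
    by_contra hne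
    have h5 : v j ≠ (E i).symm (w j) := by
      intro h
      apply hne
      have : E i (v j) = w j := by rw [h, Equiv.apply_symm_apply]
      rw [← this, E_apply]
    have h6 : v j ≠ v i := fun h => hij (hv h).symm
    have h7 := h2 (v j) h6 h5
    rw [F_eq] at h7
    exact hne h7
  -- the global map
  have hF0 : ∀ i x, x ≠ v i → F 0 x = F i x := by
    intro i x hx
    by_cases hi : i = 0
    · rw [hi]
    · by_cases hx0 : x = v 0
      · rw [hx0, F_eq, (key i 0 hi).2]
      · apply (key 0 i (Ne.symm hi)).1 x hx0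
        intro h
        apply hx
        have h2 := (key 0 i (Ne.symm hi)).2
        rw [h, ← h2, ← E_apply, Equiv.symm_apply_apply]
  have hT : ∀ i x y z, x ≠ v i → y ≠ v i → z ≠ v i →
      T X x y z = T Y (F 0 x) (F 0 y) (F 0 z) := by
    intro i x y z hx hy hz
    rw [hF0 i x hx, hF0 i y hy, hF0 i z hz]
    exact F_T i x y z hx hy hz
  rw [swEq_iff]
  refine ⟨E 0, fun x y z => ?_⟩
  simp only [E_apply]
  by_cases hex : ∃ i, x ≠ v i ∧ y ≠ v i ∧ z ≠ v i
  · obtain ⟨i, hx, hy, hz⟩ := hex
    exact hT i x y z hx hy hz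
  · have hall : ∀ i, v i ∈ ({x, y, z} : Finset V) := by
      intro i
      by_contra h
      apply hex
      simp only [Finset.mem_insert, Finset.mem_singleton, not_or] at h
      exact ⟨i, fun h1 => h.1 h1.symm, fun h1 => h.2.1 h1.symm, fun h1 => h.2.2 h1.symm⟩
    have himg : Finset.univ.image v ⊆ ({x, y, z} : Finset V) := by
      intro a ha
      obtain ⟨i, _, rfl⟩ := Finset.mem_image.1 ha
      exact hall i
    have hcard : (Finset.univ.image v).card = 3 := by
      rw [Finset.card_image_of_injective _ hv]; simp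
    have heq : Finset.univ.image v = ({x, y, z} : Finset V) :=
      Finset.eq_of_subset_of_card_le himg (by rw [hcard]; exact Finset.card_le_three)
    have h3 : ({x, y, z} : Finset V).card = 3 := by rw [← heq, hcard]
    obtain ⟨hxy, hxz, hyz⟩ : x ≠ y ∧ x ≠ z ∧ y ≠ z := by
      refine ⟨?_, ?_, ?_⟩
      · rintro rfl
        have : ({x, x, z} : Finset V).card ≤ 2 := by
          rw [Finset.insert_idem]; exact Finset.card_le_two
        omega
      · rintro rfl
        have : ({x, y, x} : Finset V).card ≤ 2 := by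
          have : ({x, y, x} : Finset V) = {x, y} := by ext a; simp; tauto
          rw [this]; exact Finset.card_le_two
        omega
      · rintro rfl
        have : ({x, y, y} : Finset V).card ≤ 2 := by
          have : ({x, y, y} : Finset V) = {x, y} := by ext a; simp
          rw [this]; exact Finset.card_le_two
        omega
    obtain ⟨p, hp⟩ : ∃ p, p ∉ ({x, y, z} : Finset V) := by
      by_contra h
      push Not at h
      have : Fintype.card V ≤ 3 := by
        rw [← h3]
        exact Finset.card_le_card (fun a _ => h a)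
      omega
    simp only [Finset.mem_insert, Finset.mem_singleton, not_or] at hp
    have hmem : ∀ a ∈ ({x, y, z} : Finset V), ∃ i, a = v i := by
      intro a ha
      rw [← heq] at ha
      obtain ⟨i, _, hi⟩ := Finset.mem_image.1 ha
      exact ⟨i, hi.symm⟩
    obtain ⟨i, hi⟩ := hmem x (by simp)
    obtain ⟨j, hj⟩ := hmem y (by simp)
    obtain ⟨k, hk⟩ := hmem z (by simp)
    rw [T_cocycle X x y z p, T_cocycle Y (F 0 x) (F 0 y) (F 0 z) (F 0 p)]
    rw [hT k x y p (hk ▸ hxz) (hk ▸ hyz) (hk ▸ hp.2.2),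
      hT i y z p (hi ▸ hxy.symm) (hi ▸ hxz.symm) (hi ▸ hp.1),
      hT j x z p (hj ▸ hxy) (hj ▸ hyz.symm) (hj ▸ hp.2.1)]

/-- change the pair `uv` -/
def toggle (X : SimpleGraph V) (u v : V) : SimpleGraph V where
  Adj a b := a ≠ b ∧ (X.Adj a b ↔ ¬ ((a = u ∧ b = v) ∨ (a = v ∧ b = u)))
  symm := ⟨fun a b h => ⟨h.1.symm, by rw [X.adj_comm, h.2]; tauto⟩⟩
  loopless := ⟨fun a h => h.1 rfl⟩

theorem g_toggle_of_not (X : SimpleGraph V) {u v a b : V}
    (h : ¬ ((a = u ∧ b = v) ∨ (a = v ∧ b = u))) : g (toggle X u v) a b = g X a b := by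
  rw [g_eq_iff]
  change (a ≠ b ∧ (X.Adj a b ↔ ¬ ((a = u ∧ b = v) ∨ (a = v ∧ b = u)))) ↔ X.Adj a b
  constructor
  · rintro ⟨_, h2⟩; exact h2.2 h
  · intro h2; exact ⟨h2.ne, ⟨fun _ => h, fun _ => h2⟩⟩

theorem g_toggle_ne (X : SimpleGraph V) {u v : V} (huv : u ≠ v) :
    g (toggle X u v) u v ≠ g X u v := by
  rw [Ne, g_eq_iff]
  change ¬ ((u ≠ v ∧ (X.Adj u v ↔ ¬ ((u = u ∧ v = v) ∨ (u = v ∧ v = u)))) ↔ X.Adj u v)
  intro h
  by_cases h1 : X.Adj u v
  · have := (h.2 h1).2.1 h1
    exact this (Or.inl ⟨rfl, rfl⟩)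
  · apply h1
    apply h.1
    refine ⟨huv, ⟨fun h2 => absurd h2 h1, fun h2 => ?_⟩⟩
    exact absurd (Or.inl ⟨rfl, rfl⟩) h2

theorem T_toggle_left (X : SimpleGraph V) {u v x y z : V} (hx : x ≠ u) (hy : y ≠ u)
    (hz : z ≠ u) : T (toggle X u v) x y z = T X x y z := by
  unfold T
  rw [g_toggle_of_not, g_toggle_of_not, g_toggle_of_not] <;> tauto

theorem T_toggle_right (X : SimpleGraph V) {u v x y z : V} (hx : x ≠ v) (hy : y ≠ v)
    (hz : z ≠ v) : T (toggle X u v) x y z = T X x y z := by
  unfold T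
  rw [g_toggle_of_not, g_toggle_of_not, g_toggle_of_not] <;> tauto

/-- rigid two-graphs are not determined by two cards -/
theorem Rigid.notTwoCards [Fintype V] (hV : 3 ≤ Fintype.card V) {X : SimpleGraph V}
    (hX : Rigid X) : NotTwoCards X := by
  classical
  intro u v huv
  refine ⟨toggle X u v, ?_, ?_, ?_⟩
  · have : card (toggle X u v) u = card X u := by
      apply ext_g
      intro a b
      rw [g_induce, g_induce, g_toggle_of_not]
      rintro (h | h)
      · exact a.2 h.1
      · exact b.2 h.2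
    rw [this]
    exact SwEq.refl _
  · have : card (toggle X u v) v = card X v := by
      apply ext_g
      intro a b
      rw [g_induce, g_induce, g_toggle_of_not]
      rintro (h | h)
      · exact b.2 h.2
      · exact a.2 h.1
    rw [this]
    exact SwEq.refl _
  · intro h
    obtain ⟨φ, hφ⟩ := (swEq_iff _ _).1 h
    have h1 : ∀ w : V, (∀ x y z, x ≠ w → y ≠ w → z ≠ w →
        T (toggle X u v) x y z = T X x y z) → ∀ x, x ≠ φ.symm w → φ x = x := by
      intro w hw x hx
      have hne : ∀ x, x ≠ φ.symm w → φ x ≠ w := by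
        intro x hx h
        apply hx
        rw [← h, φ.symm_apply_apply]
      refine hX (φ.symm w) (φ.symm w) φ (fun x y _ _ hxy => φ.injective hxy) ?_ x ⟨hx, hx⟩
      intro x y z hx hy hz
      rw [hφ, hw _ _ _ (hne x hx.1) (hne y hy.1) (hne z hz.1)]
    have h2 : ∀ x, φ x = x := by
      intro x
      by_cases hx : x = φ.symm u
      · apply h1 v (fun x y z hx hy hz => T_toggle_right X hx hy hz)
        rw [hx]
        exact fun h => huv (φ.symm.injective h)
      · exact h1 u (fun x y z hx hy hz => T_toggle_left X hx hy hz) x hx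
    obtain ⟨z, hz⟩ : ∃ z, z ∉ ({u, v} : Finset V) := by
      by_contra h
      push Not at h
      have : Fintype.card V ≤ 2 := by
        have h3 : ({u, v} : Finset V).card ≤ 2 := Finset.card_le_two
        exact le_trans (Finset.card_le_card (fun a _ => h a)) h3
      omega
    simp only [Finset.mem_insert, Finset.mem_singleton, not_or] at hz
    have h3 := hφ u v z
    rw [h2, h2, h2] at h3
    unfold T at h3
    rw [g_toggle_of_not X (a := v) (b := z) (by tauto),
      g_toggle_of_not X (a := u) (b := z) (by tauto)] at h3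
    apply g_toggle_ne X huv
    linear_combination -h3

theorem Rigid.congr {X : SimpleGraph V} {Y : SimpleGraph W} (h : SwEq X Y) (hX : Rigid X) :
    Rigid Y := by
  obtain ⟨φ, hφ⟩ := (swEq_iff _ _).1 h
  intro u v f hf hp x hx
  have hh : ∀ x a, x ≠ φ.symm a → φ x ≠ a := by
    intro x a hx h
    apply hx
    rw [← h, φ.symm_apply_apply]
  have := hX (φ.symm u) (φ.symm v) (fun x => φ.symm (f (φ x))) ?_ ?_ (φ.symm x) ?_
  · rw [φ.apply_symm_apply] at this
    exact φ.symm.injective this
  · intro x y hx hy hxy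
    apply φ.injective
    apply hf _ _ ⟨hh _ _ hx.1, hh _ _ hx.2⟩ ⟨hh _ _ hy.1, hh _ _ hy.2⟩
    exact φ.symm.injective hxy
  · intro x y z hx hy hz
    rw [hφ, hφ]
    simp only [Equiv.apply_symm_apply]
    exact hp _ _ _ ⟨hh _ _ hx.1, hh _ _ hx.2⟩ ⟨hh _ _ hy.1, hh _ _ hy.2⟩
      ⟨hh _ _ hz.1, hh _ _ hz.2⟩
  · exact ⟨fun h => hx.1 (φ.symm.injective h), fun h => hx.2 (φ.symm.injective h)⟩

end SwR
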