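import Pool.Agent.Helper69.SwR.Rig
import Pool.Agent.Helper69.SwR.Count

/-! Unlabelled counting: isomorphism types of switching classes -/

open Finset

namespace SwR

/-- switching equivalence as a setoid -/
def swSetoid (n : ℕ) : Setoid (SimpleGraph (Fin n)) :=
  ⟨fun X Y => SwEq X Y, ⟨fun X => SwEq.refl X, fun h => SwEq.symm h, fun h h' => SwEq.trans h h'⟩⟩

/-- the type of switching equivalence classes of graphs on `n` vertices -/
abbrev Cls (n : ℕ) : Type := Quotient (swSetoid n)

noncomputable instance (n : ℕ) : Fintype (Cls n) := by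
  classical
  exact Fintype.ofSurjective (Quotient.mk (swSetoid n)) Quotient.mk_surjective

/-- the union bound sum -/
noncomputable def bsum (n : ℕ) : ℕ := ∑ t ∈ badPairs n, fixCount n t

open Classical in
theorem card_nonrigid_le (n : ℕ) :
    ((univ : Finset (SimpleGraph (Fin n))).filter fun X => ¬ Rigid X).card ≤ bsum n := by
  have hsub : ((univ : Finset (SimpleGraph (Fin n))).filter fun X => ¬ Rigid X) ⊆
      (badPairs n).biUnion fun t =>
        (univ : Finset (SimpleGraph (Fin n))).filter fun X => Pres X t.1 t.2.1 t.2.2 := by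
    intro X hX
    rw [mem_filter] at hX
    have h := hX.2
    unfold Rigid at h
    push Not at h
    obtain ⟨u, v, f, hf, hp, x, hx, hne⟩ := h
    rw [mem_biUnion]
    refine ⟨(u, v, f), ?_, ?_⟩
    · unfold badPairs
      rw [mem_filter]
      exact ⟨mem_univ _, hf, x, hx, hne⟩
    · rw [mem_filter]
      exact ⟨mem_univ _, hp⟩
  exact (card_le_card hsub).trans card_biUnion_le

open Classical in
/-- automorphisms of the two-graph -/
noncomputable def auts {n : ℕ} (X : SimpleGraph (Fin n)) : Finset (Equiv.Perm (Fin n)) :=
  univ.filter fun σ => ∀ x y z, T X x y z = T X (σ x) (σ y) (σ z)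

theorem one_mem_auts {n : ℕ} (X : SimpleGraph (Fin n)) : 1 ∈ auts X := by
  unfold auts
  rw [mem_filter]
  exact ⟨mem_univ _, fun x y z => rfl⟩

open Classical in
/-- number of graphs with trivial two-graph -/
noncomputable def kap (n : ℕ) : ℕ :=
  ((univ : Finset (SimpleGraph (Fin n))).filter fun Y => ∀ x y z, T Y x y z = 0).card

theorem g_symmDiff {V : Type*} (X Y : SimpleGraph V) (x y : V) :
    g (symmDiff X Y) x y = g X x y + g Y x y := by
  unfold g
  have h : (symmDiff X Y).Adj x y ↔ (X.Adj x y ∧ ¬ Y.Adj x y) ∨ (Y.Adj x y ∧ ¬ X.Adj x y) := by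
    rw [symmDiff]
    simp
  by_cases h1 : X.Adj x y <;> by_cases h2 : Y.Adj x y <;> simp [h, h1, h2]
  decide

theorem T_symmDiff {V : Type*} (X Y : SimpleGraph V) (x y z : V) :
    T (symmDiff X Y) x y z = T X x y z + T Y x y z := by
  unfold T
  rw [g_symmDiff, g_symmDiff, g_symmDiff]
  ring

theorem T_comap {V W : Type*} (X : SimpleGraph V) (f : W → V) (x y z : W) :
    T (X.comap f) x y z = T X (f x) (f y) (f z) := by
  unfold T
  have : ∀ x y, g (X.comap f) x y = g X (f x) (f y) := by
    intro x y; rw [g_eq_iff]; rfl
  rw [this, this, this]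

open Classical in
theorem card_same (n : ℕ) (H : SimpleGraph (Fin n)) :
    ((univ : Finset (SimpleGraph (Fin n))).filter fun X => ∀ x y z,
      T X x y z = T H x y z).card = kap n := by
  unfold kap
  apply card_bij (fun X _ => symmDiff X H)
  · intro X hX
    rw [mem_filter] at hX ⊢
    refine ⟨mem_univ _, fun x y z => ?_⟩
    rw [T_symmDiff, hX.2]
    linear_combination T H x y z * two_zero
  · intro X _ Y _ h
    exact symmDiff_left_injective H h
  · intro Y hY
    rw [mem_filter] at hY
    refine ⟨symmDiff Y H, ?_, ?_⟩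
    · rw [mem_filter]
      refine ⟨mem_univ _, fun x y z => ?_⟩
      rw [T_symmDiff, hY.2, zero_add]
    · exact symmDiff_symmDiff_cancel_right H Y

open Classical in
theorem sum_auts_class (n : ℕ) (c : Cls n) :
    ∑ X ∈ (univ : Finset (SimpleGraph (Fin n))) with (Quotient.mk (swSetoid n) X = c),
      (auts X).card = Fintype.card (Equiv.Perm (Fin n)) * kap n := by
  obtain ⟨H, rfl⟩ := Quotient.exists_rep c
  -- count by the second component
  have h2 : ∑ σ : Equiv.Perm (Fin n), ((univ : Finset (SimpleGraph (Fin n))).filter fun X =>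
      ∀ x y z, T X x y z = T H (σ x) (σ y) (σ z)).card =
      Fintype.card (Equiv.Perm (Fin n)) * kap n := by
    rw [← smul_eq_mul, ← Finset.card_univ, ← Finset.sum_const]
    apply sum_congr rfl
    intro σ _
    rw [← card_same n (H.comap σ)]
    simp only [T_comap]
  -- count by the first component
  have h1 : ∀ X : SimpleGraph (Fin n), ((univ : Finset (Equiv.Perm (Fin n))).filter fun σ =>
      ∀ x y z, T X x y z = T H (σ x) (σ y) (σ z)).card =
      if Quotient.mk (swSetoid n) X = Quotient.mk (swSetoid n) H then (auts X).card else 0 := by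
    intro X
    split_ifs with hX
    · have hX' : SwEq X H := Quotient.exact hX
      obtain ⟨σ0, hσ0⟩ := (swEq_iff _ _).1 hX'
      symm
      unfold auts
      apply card_bij (fun α _ => α.trans σ0)
      · intro α hα
        rw [mem_filter] at hα ⊢
        refine ⟨mem_univ _, fun x y z => ?_⟩
        rw [hα.2 x y z, hσ0]
        rfl
      · intro α _ β _ h
        ext x
        have := Equiv.congr_fun h x
        exact congrArg Fin.val (σ0.injective this)
      · intro σ hσ
        rw [mem_filter] at hσ
        refine ⟨σ.trans σ0.symm, ?_, ?_⟩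
        · rw [mem_filter]
          refine ⟨mem_univ _, fun x y z => ?_⟩
          rw [hσ.2 x y z, hσ0]
          simp
        · ext x
          simp
    · rw [card_eq_zero, filter_eq_empty_iff]
      intro σ _ h
      apply hX
      apply Quotient.sound
      exact (swEq_iff _ _).2 ⟨σ, h⟩
  rw [sum_filter, ← h2]
  rw [sum_congr rfl (fun X _ => (h1 X).symm)]
  simp only [card_filter]
  exact sum_comm

open Classical in
/-- double counting for invariant families -/
theorem sum_auts_invariant (n : ℕ) (P : SimpleGraph (Fin n) → Prop)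
    (hP : ∀ X Y, SwEq X Y → P X → P Y) :
    (((univ : Finset (SimpleGraph (Fin n))).filter P).image (Quotient.mk (swSetoid n))).card *
      (Fintype.card (Equiv.Perm (Fin n)) * kap n) =
      ∑ X ∈ (univ : Finset (SimpleGraph (Fin n))).filter P, (auts X).card := by
  rw [← smul_eq_mul, ← Finset.sum_const,
    ← sum_fiberwise_of_maps_to (s := (univ : Finset (SimpleGraph (Fin n))).filter P)
      (t := ((univ : Finset (SimpleGraph (Fin n))).filter P).image (Quotient.mk (swSetoid n)))
      (g := Quotient.mk (swSetoid n)) (fun X hX => mem_image_of_mem _ hX)]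
  apply sum_congr rfl
  intro c hc
  rw [← sum_auts_class n c]
  apply sum_congr _ (fun _ _ => rfl)
  ext X
  simp only [mem_filter, mem_univ, true_and]
  constructor
  · intro h
    refine ⟨?_, h⟩
    obtain ⟨Y, hY, rfl⟩ := mem_image.1 hc
    rw [mem_filter] at hY
    exact hP Y X (SwEq.symm (Quotient.exact h)) hY.2
  · intro h; exact h.2

open Classical in
/-- the classes of non-rigid graphs -/
noncomputable def nrCls (n : ℕ) : Finset (Cls n) :=
  ((univ : Finset (SimpleGraph (Fin n))).filter fun X => ¬ Rigid X).image
    (Quotient.mk (swSetoid n))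

open Classical in
theorem sum_nontrivial_auts (n : ℕ) :
    ∑ X : SimpleGraph (Fin n), ((auts X).erase 1).card ≤ bsum n := by
  have h1 : ∑ X : SimpleGraph (Fin n), ((auts X).erase 1).card =
      ∑ σ ∈ (univ : Finset (Equiv.Perm (Fin n))).erase 1,
        ((univ : Finset (SimpleGraph (Fin n))).filter fun X => ∀ x y z,
          T X x y z = T X (σ x) (σ y) (σ z)).card := by
    have : ∀ X : SimpleGraph (Fin n), (auts X).erase 1 =
        ((univ : Finset (Equiv.Perm (Fin n))).erase 1).filter fun σ => ∀ x y z,
          T X x y z = T X (σ x) (σ y) (σ z) := by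
      intro X
      ext σ
      unfold auts
      simp only [mem_erase, mem_filter, mem_univ, true_and, and_true]
    simp only [this, card_filter]
    exact sum_comm
  rw [h1]
  rcases Nat.eq_zero_or_pos n with h0 | hpos
  · subst h0
    have : (univ : Finset (Equiv.Perm (Fin 0))).erase 1 = ∅ := by
      ext σ
      simp only [mem_erase, mem_univ, and_true, notMem_empty, iff_false, not_not]
      exact Subsingleton.elim _ _
    rw [this, sum_empty]
    exact Nat.zero_le _
  have : Nonempty (Fin n) := ⟨⟨0, hpos⟩⟩
  have hx : ∀ σ : Equiv.Perm (Fin n), σ ≠ 1 → ∃ x, σ x ≠ x := by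
    intro σ hσ
    by_contra h
    push Not at h
    exact hσ (Equiv.ext h)
  choose! x hx using hx
  let m : Equiv.Perm (Fin n) → Fin n × Fin n × (Fin n → Fin n) := fun σ =>
    (σ (x σ), σ (x σ), σ)
  have hm : ∀ σ ∈ (univ : Finset (Equiv.Perm (Fin n))).erase 1, m σ ∈ badPairs n := by
    intro σ hσ
    have h := hx σ (mem_erase.1 hσ).1
    unfold badPairs
    rw [mem_filter]
    refine ⟨mem_univ _, fun a b _ _ hab => σ.injective hab, x σ, ⟨h.symm, h.symm⟩, h⟩
  have hinj : ∀ σ ∈ (univ : Finset (Equiv.Perm (Fin n))).erase 1,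
      ∀ ρ ∈ (univ : Finset (Equiv.Perm (Fin n))).erase 1, m σ = m ρ → σ = ρ := by
    intro σ _ ρ _ h
    have h3 : (σ : Fin n → Fin n) = ρ := congrArg (fun t => t.2.2) h
    exact Equiv.ext (fun a => congrFun h3 a)
  calc ∑ σ ∈ (univ : Finset (Equiv.Perm (Fin n))).erase 1,
        ((univ : Finset (SimpleGraph (Fin n))).filter fun X => ∀ x y z,
          T X x y z = T X (σ x) (σ y) (σ z)).card
      ≤ ∑ σ ∈ (univ : Finset (Equiv.Perm (Fin n))).erase 1, fixCount n (m σ) := by
        apply sum_le_sum
        intro σ _
        apply card_le_card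
        intro X hX
        rw [mem_filter] at hX ⊢
        exact ⟨mem_univ _, fun a b c _ _ _ => hX.2 a b c⟩
    _ = ∑ t ∈ ((univ : Finset (Equiv.Perm (Fin n))).erase 1).image m, fixCount n t := by
        rw [sum_image hinj]
    _ ≤ bsum n := by
        apply sum_le_sum_of_subset
        intro t ht
        obtain ⟨σ, hσ, rfl⟩ := mem_image.1 ht
        exact hm σ hσ

theorem nrCls_bound (n : ℕ) :
    (nrCls n).card * Fintype.card (SimpleGraph (Fin n)) ≤ 2 * bsum n * Fintype.card (Cls n) := by
  classical
  set K := Fintype.card (Equiv.Perm (Fin n)) * kap n with hK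
  have h1 : (nrCls n).card * K ≤ 2 * bsum n := by
    unfold nrCls
    have h2 := sum_auts_invariant n (fun X => ¬ Rigid X)
      (fun X Y h hX hY => hX (Rigid.congr (SwEq.symm h) hY))
    rw [← hK] at h2
    calc _ = ∑ X ∈ (univ : Finset (SimpleGraph (Fin n))).filter (fun X => ¬ Rigid X),
          (auts X).card := by
            convert h2
      _ = ∑ X ∈ (univ : Finset (SimpleGraph (Fin n))).filter (fun X => ¬ Rigid X),
          (((auts X).erase 1).card + 1) := by
            apply sum_congr rfl
            intro X _
            rw [card_erase_add_one (one_mem_auts X)]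
      _ = ∑ X ∈ (univ : Finset (SimpleGraph (Fin n))).filter (fun X => ¬ Rigid X),
          ((auts X).erase 1).card +
          ((univ : Finset (SimpleGraph (Fin n))).filter (fun X => ¬ Rigid X)).card := by
            rw [sum_add_distrib, sum_const, smul_eq_mul, mul_one]
      _ ≤ bsum n + bsum n := by
            apply Nat.add_le_add _ (card_nonrigid_le n)
            exact (sum_le_sum_of_subset (filter_subset _ _)).trans (sum_nontrivial_auts n)
      _ = 2 * bsum n := by ring
  have h3 : Fintype.card (SimpleGraph (Fin n)) ≤ Fintype.card (Cls n) * K := by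
    have h2 := sum_auts_invariant n (fun _ => True) (fun _ _ _ h => h)
    rw [← hK] at h2
    have h7 : ∀ inst : DecidablePred fun _ : SimpleGraph (Fin n) => True,
        (@Finset.filter _ (fun _ => True) inst univ) = univ := by
      intro inst
      ext X
      simp
    rw [h7] at h2
    have h4 : (univ : Finset (SimpleGraph (Fin n))).image (Quotient.mk (swSetoid n)) = univ := by
      ext c
      simp only [mem_image, mem_univ, true_and, iff_true]
      exact Quotient.exists_rep c
    rw [h4, card_univ] at h2
    rw [h2]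
    calc Fintype.card (SimpleGraph (Fin n)) = ∑ X : SimpleGraph (Fin n), 1 := by
          rw [sum_const, smul_eq_mul, mul_one, card_univ]
      _ ≤ _ := by
          apply sum_le_sum
          intro X _
          exact card_pos.2 ⟨1, one_mem_auts X⟩
  calc (nrCls n).card * Fintype.card (SimpleGraph (Fin n))
      ≤ (nrCls n).card * (Fintype.card (Cls n) * K) := Nat.mul_le_mul_left _ h3
    _ = (nrCls n).card * K * Fintype.card (Cls n) := by ring
    _ ≤ 2 * bsum n * Fintype.card (Cls n) := Nat.mul_le_mul_right _ h1

end SwR
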